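import Mathlib
import Pool.Agent.Work.MP_f1d084_lc.Defs
import Pool.Agent.Work.MP_f1d084_lc.Grp3

set_option autoImplicit false

namespace Pool.Agent.Results.MP_f1d084_lc.AllClosedGroups

open Pool.Agent.Work.MP_f1d084_lc

/-- Every permutation group `G` of a countably infinite set which is closed in the topology of
pointwise convergence is the automorphism group of a countably infinite elementarily homogeneous
partial order `P`, as a permutation group on the set of minimal elements of `P`: there are an
enumeration `ι` of the minimal elements of `P` without repetitions and an isomorphism `φ` from the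
automorphism group of `P` onto `G` such that `f (ι x) = ι (φ f x)` for all `f` and `x`. Moreover
every element of `P` is fixed by all automorphisms which fix some finite set of minimal elements,
so `φ` is an isomorphism of topological groups for the topologies of pointwise convergence. -/
theorem result (G : Subgroup (Equiv.Perm ℕ))
    (hG : ∀ σ : Equiv.Perm ℕ, (∀ F : Finset ℕ, ∃ g ∈ G, ∀ x ∈ F, g x = σ x) → σ ∈ G) :
    ∃ (P : Type) (_ : PartialOrder P), Countable P ∧ Infinite P ∧ ElemHomog P ∧
      ∃ (ι : ℕ → P) (φ : (P ≃o P) ≃* G), Function.Injective ι ∧ (∀ p, IsMin p ↔ ∃ x, ι x = p) ∧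
        (∀ f x, f (ι x) = ι ((φ f : Equiv.Perm ℕ) x)) ∧
        ∀ p, ∃ F : Finset ℕ, ∀ f : P ≃o P, (∀ x ∈ F, f (ι x) = ι x) → f p = p := by
  obtain ⟨c, hc⟩ := exists_sep G
  exact g_main G hG c hc

end Pool.Agent.Results.MP_f1d084_lc.AllClosedGroups
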