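import Mathlib
import Pool.Agent.Work.MP_f1d084_lc.Stmt2

set_option autoImplicit false

namespace Pool.Agent.Results.MP_f1d084_lc.Classification

open Pool.Agent.Work.MP_f1d084_lc

/-- **Classification of the countably infinite elementarily homogeneous partial orders.**

1. The spectrum `spec P` (all sequences of types, of depths `0, 1, 2, ...`, realized by the finite
   tuples of `P`; a type of depth `0` is the induced order, a type of depth `k + 1` is the set of the
   types of depth `k` of the extensions by one point) is a complete isomorphism invariant, and the
   families which occur are exactly the type families (`IsSpec`): countable, with one type of the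
   empty tuple, closed under substitution, with the truth and the one-point amalgamation property,
   with preorders as types of depth `0` and with arbitrarily many different points.
2. For each of the classes `E` of all elementarily homogeneous partial orders on `ℕ`, of those of
   height at most two, and of the linear ones: the isomorphism types in `E` correspond one-to-one,
   and in a Borel way in both directions, to all nonempty countable sets of reals.
3. For each of the first two classes: the isomorphism types in `E` correspond one-to-one, in a
   Borel way and with the same isomorphisms, to all Fraïssé classes of the universal countable
   relational language with members of every finite size.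
4. Each of the three classes is complete for the class `Π_(ω+2)` of the Borel hierarchy. -/
theorem result :
    ((∀ (P Q : Type) [PartialOrder P] [PartialOrder Q] [Countable P] [Countable Q] [Infinite P]
        [Infinite Q], ElemHomog P → ElemHomog Q → (Nonempty (P ≃o Q) ↔ spec P = spec Q)) ∧
      ∀ S : ∀ n, Set (∀ k, TT k n), (∃ (P : Type) (_ : PartialOrder P), Countable P ∧ Infinite P ∧
        ElemHomog P ∧ spec P = S) ↔ IsSpec S) ∧
    (RealClassified EH ∧ RealClassified EH2 ∧ RealClassified EHLin) ∧
    (FraisseClassified EH ∧ FraisseClassified EH2) ∧
    (PiComplete EH ∧ PiComplete EH2 ∧ PiComplete EHLin) := by
  obtain ⟨h1, h2, h3, h4, h5⟩ := classification_main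
  exact ⟨⟨h1, h2⟩, h3, ⟨h4, h5⟩, piComplete_EH, piComplete_EH2, piComplete_EHLin⟩

end Pool.Agent.Results.MP_f1d084_lc.Classification
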