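import Mathlib
import Pool.Agent.Work.MP_f1d084_lc.Stmt2
import Pool.Agent.Work.MP_f1d084_lc.Lin3
import Pool.Agent.Work.MP_f1d084_lc.NonSmooth

set_option autoImplicit false

namespace Pool.Agent.Results.MP_f1d084_lc.ClassificationComplexity

open Pool.Agent.Work.MP_f1d084_lc

/-- The exact complexity of the classification of the countably infinite elementarily homogeneous
partial orders, and of the class itself.

`Code = ℕ → ℕ → Bool` is the space of codes of binary relations on `ℕ`, `EH` the set of codes of
elementarily homogeneous partial orders, `EH2` of those of height at most two, `EHLin` of those that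
are linear, and `OfCode R` is `ℕ` with the relation coded by `R`.

1. For each of the three classes the isomorphism types correspond one-to-one, and in a Borel way in
   both directions, to all nonempty countable sets of reals.
2. Each of the three classes is complete for the class `Π_(ω+2)` of the Borel hierarchy.
3. A continuous map reduces equality of countable sets of reals to isomorphism of elementarily
   homogeneous linear orders.
4. No Borel map to a countably separated space `Y` (for instance to the reals) is a complete
   invariant, even for elementarily homogeneous linear orders. -/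
theorem result :
    (RealClassified EH ∧ RealClassified EH2 ∧ RealClassified EHLin) ∧
    (PiComplete EH ∧ PiComplete EH2 ∧ PiComplete EHLin) ∧
    (∃ g : (ℕ → ℕ → Bool) → Code, Continuous g ∧ (∀ s, g s ∈ EHLin) ∧
      ∀ s t, (Nonempty (OfCode (g s) ≃o OfCode (g t)) ↔ Set.range s = Set.range t)) ∧
    ∀ (Y : Type) [MeasurableSpace Y] [MeasurableSpace.CountablySeparated Y] (h : Code → Y),
      Measurable h →
        ¬ ∀ R ∈ EHLin, ∀ S ∈ EHLin, (Nonempty (OfCode R ≃o OfCode S) ↔ h R = h S) := by
  obtain ⟨-, -, h3, -, -⟩ := classification_main
  obtain ⟨g, hg1, hg2, hg3⟩ := lower_linear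
  refine ⟨h3, ⟨piComplete_EH, piComplete_EH2, piComplete_EHLin⟩, ⟨g, hg1, hg2, hg3⟩, ?_⟩
  intro Y _ _ h hh hcon
  refine not_smooth (fun s => h (g s)) (hh.comp hg1.measurable) ?_
  intro s t
  rw [← hg3]
  exact hcon _ (hg2 s) _ (hg2 t)

end Pool.Agent.Results.MP_f1d084_lc.ClassificationComplexity
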