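import Mathlib
import Pool.Agent.Work.MP_f1d084_lc.Uni5
import Pool.Agent.Work.MP_f1d084_lc.Uni6

set_option autoImplicit false

namespace Pool.Agent.Results.MP_f1d084_lc.HeightTwoUniversal

open Pool.Agent.Work.MP_f1d084_lc

/-- The classification problem for countably infinite elementarily homogeneous partial orders,
already for those of height two, is equivalent to the classification problem for all countably
infinite ultrahomogeneous structures in countable relational languages; the equivalence is
functorial: it does not only preserve the existence of isomorphisms, but the isomorphisms (in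
particular the automorphism groups) themselves.

`Str ar` is the space of all structures on `ℕ` in the relational language with symbols indexed by
`I` and arities `ar`, `UH M` says that `M` is ultrahomogeneous and `IsIso M N g` that the
permutation `g` of `ℕ` is an isomorphism from `M` onto `N`. `Code = ℕ → ℕ → Bool` is the space of
binary relations on `ℕ`, `OfCode R` is `ℕ` with the relation coded by `R`, and `EH` is the set of
the codes of elementarily homogeneous partial orders.

1. For every countable relational language there are a continuous map `Φ` from structures to codes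
   of partial orders of height at most two (in `a ≤ b ≤ d` two neighbours are equal) and an
   injection `ι` such that `Φ` maps ultrahomogeneous structures to elementarily homogeneous
   partial orders, and `f ↦ ι⁻¹ ∘ f ∘ ι` is a bijection from the isomorphisms from `Φ M` onto
   `Φ N` to the isomorphisms from `M` onto `N`, for all `M` and `N`; moreover the value of an
   isomorphism at a point `p` of `Φ M` is determined by its values at finitely many points of the
   range of `ι`, so the bijection and its inverse are continuous.
2. Conversely there are a countable relational language and a Borel map `Ψ` from codes of binary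
   relations to structures in this language such that `Ψ R` and `Ψ S` have the same isomorphisms
   as `R` and `S`, and `Ψ R` is ultrahomogeneous if and only if `R` is elementarily
   homogeneous. -/
theorem result :
    (∀ (I : Type) [Countable I] (ar : I → ℕ), ∃ (Φ : Str ar → Code) (ι : ℕ → ℕ),
      Continuous Φ ∧ Function.Injective ι ∧
      (∀ M, IsPO (Φ M)) ∧
      (∀ M, ∀ a b d : OfCode (Φ M), a ≤ b → b ≤ d → a = b ∨ b = d) ∧
      (∀ M, UH M → Φ M ∈ EH) ∧
      (∀ (M N : Str ar) (g : Equiv.Perm ℕ), IsIso M N g ↔
        ∃ f : OfCode (Φ M) ≃o OfCode (Φ N), ∀ x, f (ι x) = ι (g x)) ∧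
      (∀ (M N : Str ar) (f : OfCode (Φ M) ≃o OfCode (Φ N)),
        ∃ g : Equiv.Perm ℕ, ∀ x, f (ι x) = ι (g x)) ∧
      (∀ (M : Str ar) (p : OfCode (Φ M)), ∃ F : Finset ℕ,
        ∀ (N : Str ar) (f f' : OfCode (Φ M) ≃o OfCode (Φ N)),
          (∀ x ∈ F, f (ι x) = f' (ι x)) → f p = f' p)) ∧
    ∃ (J : Type) (_ : Countable J) (br : J → ℕ) (Ψ : Code → Str br), Measurable Ψ ∧
      (∀ (R S : Code) (g : Equiv.Perm ℕ), IsIso (Ψ R) (Ψ S) g ↔
        ∃ f : OfCode R ≃o OfCode S, ∀ x : ℕ, f x = g x) ∧
      ∀ R : Code, UH (Ψ R) ↔ ElemHomog (OfCode R) := by
  refine ⟨fun I _ ar => ?_, FoI, inferInstance, foAr, morl, measurable_morl, ?_, uh_morl_iff⟩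
  · obtain ⟨Φ, ι, h1, h2, h3, h4, h5, h6, h7, h8⟩ := universal I ar
    exact ⟨Φ, ι, h1, h2, h3, h4, fun M hM => ⟨h3 M, h5 M hM⟩, h6, h7, h8⟩
  · intro R S g
    rw [isIso_morl_iff]
    constructor
    · intro h
      exact ⟨permIso g h, fun _ => rfl⟩
    · rintro ⟨f, hf⟩ a b
      have h1 := f.le_iff_le (x := (a : OfCode R)) (y := (b : OfCode R))
      have h2 : f (a : OfCode R) = g a := hf a
      have h3 : f (b : OfCode R) = g b := hf b
      rw [h2, h3] at h1
      exact Bool.eq_iff_iff.mpr h1

end Pool.Agent.Results.MP_f1d084_lc.HeightTwoUniversal
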